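import Pool.Agent.Helper23.MT.Goals

/-! # Packet MT-LIFT3 (MP_9d5c58_nt): 3-adic lifting along the first `c` letters -/

set_option autoImplicit false

namespace Pool.Agent.Helper5.MT

open Pool.Agent.Helper23.MT

theorem gLIFT3 : GLIFT3 := by
  intro c
  induction c with
  | zero =>
    intro m ρ y _ h
    exact ⟨y, rfl, by simpa using h⟩
  | succ c ih =>
    intro m ρ y hs h
    have hs' : Surv c (U ρ) := by
      intro i hi
      have := hs (i + 1) (by omega)
      rwa [Function.iterate_succ_apply] at this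
    rw [Function.iterate_succ_apply] at h
    obtain ⟨z1, hz1, t, ht⟩ := ih (7 * m) (U ρ) y hs' (by
      rwa [show (7 : ℤ) ^ c * (7 * m) = 7 ^ (c + 1) * m by ring])
    have h0 : ρ % 3 ≠ 1 := hs 0 (by omega)
    rcases (by omega : ρ % 3 = 0 ∨ ρ % 3 = 2) with h1 | h1
    · refine ⟨3 * z1, ?_, 7 * t, ?_⟩
      · rw [Function.iterate_succ_apply, U_three_mul, hz1]
      · have h2 := U_zero_mod h1
        have h3 : z1 = U ρ + 3 ^ c * (7 * m) * t := by linarith
        rw [h3]
        linear_combination h2
    · have h2 := U_two_mod h1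
      have h3 : z1 = U ρ + 3 ^ c * (7 * m) * t := by linarith
      refine ⟨ρ + 3 ^ (c + 1) * m * t, ?_, t, by ring⟩
      rw [Function.iterate_succ_apply, U_of_seven (y := z1), hz1]
      rw [h3]
      linear_combination (-1 : ℤ) * h2

end Pool.Agent.Helper5.MT
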